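import Pool.Agent.W945.Pw.Stm2

set_option autoImplicit false

/-!
# PW2-SEPNEG: separators of decreasing size give small pathwidth
-/

namespace Pool.Agent.W334.Pw.SEPNEG

open Finset Pool.Agent.W945.Pw Pool.Agent.W778.Pw.SEP

theorem mono {V : Type} (R : V → V → Prop) (W : Finset V) (β β' : ℝ) (h : β ≤ β')
    (hd : HasPathDec R W β) : HasPathDec R W β' := by
  obtain ⟨r, b, c1, c2, c3, c4, c5⟩ := hd
  exact ⟨r, b, c1, c2, c3, c4, fun t => (c5 t).trans h⟩

theorem single {V : Type} (R : V → V → Prop) (W : Finset V) (β : ℝ) (h : (W.card : ℝ) ≤ β) :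
    HasPathDec R W β := by
  refine ⟨1, fun _ => W, fun _ => Subset.refl _, ?_, ?_, ?_, ?_⟩
  · intro v hv
    exact ⟨0, by norm_num, hv⟩
  · intro u hu v hv _
    exact ⟨0, by norm_num, hu, hv⟩
  · intro v t₁ t₂ t₃ _ _ h1 _
    exact h1
  · intro _
    exact h

open Classical in
/-- the bound for a set of `w` vertices -/
noncomputable def bd (M K N₀ α w : ℝ) : ℝ :=
  if w ≤ N₀ then N₀ else N₀ + M * (K * N₀ ^ (-α) - w ^ (-α))

theorem claim {V : Type} [Fintype V] [DecidableEq V] (R : V → V → Prop)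
    (θ c α N₀ : ℝ) (hθ : 0 < θ) (hθ1 : θ < 1) (hc : 0 ≤ c) (hα : 0 < α) (hN₀ : 0 < N₀)
    (hsep : ∀ W : Finset V, N₀ < W.card → ∃ A S B : Finset V,
      (∀ v, v ∈ W ↔ v ∈ A ∨ v ∈ S ∨ v ∈ B) ∧
      (∀ u ∈ A, ∀ v ∈ B, u ≠ v ∧ ¬ R u v ∧ ¬ R v u) ∧
      (A.card : ℝ) ≤ θ * W.card ∧ (B.card : ℝ) ≤ θ * W.card ∧
      (S.card : ℝ) ≤ c * (W.card : ℝ) ^ (-α))
    (K M : ℝ) (hK : K = θ ^ (-α)) (hM : M = c / (K - 1)) (hK1 : 1 < K) (W : Finset V) :
    HasPathDec R W (bd M K N₀ α W.card) := by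
  have hM0 : 0 ≤ M := by rw [hM]; exact div_nonneg hc (by linarith)
  have hcM : c = M * (K - 1) := by
    rw [hM]
    field_simp [(by linarith : K - 1 ≠ 0)]
  induction hn : W.card using Nat.strong_induction_on generalizing W with
  | _ n ih =>
    subst hn
    by_cases hW : (W.card : ℝ) ≤ N₀
    · unfold bd
      rw [if_pos hW]
      exact single R W _ hW
    · have hW' : N₀ < W.card := not_le.1 hW
      have hWpos : (0 : ℝ) < W.card := hN₀.trans hW'
      obtain ⟨A, S, B, hWs, hAB, hA, hB, hS⟩ := hsep W hW'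
      have hlt : θ * W.card < W.card := by nlinarith
      have hA' : A.card < W.card := by
        have : (A.card : ℝ) < W.card := lt_of_le_of_lt hA hlt
        exact_mod_cast this
      have hB' : B.card < W.card := by
        have : (B.card : ℝ) < W.card := lt_of_le_of_lt hB hlt
        exact_mod_cast this
      have decA := ih A.card hA' A rfl
      have decB := ih B.card hB' B rfl
      have hw : (W.card : ℝ) ^ (-α) ≤ N₀ ^ (-α) :=
        Real.rpow_le_rpow_of_nonpos hN₀ hW'.le (by linarith)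
      have hS' : (S.card : ℝ) ≤ M * (K - 1) * (W.card : ℝ) ^ (-α) := by rwa [← hcM]
      have hbW : bd M K N₀ α W.card = N₀ + M * (K * N₀ ^ (-α) - (W.card : ℝ) ^ (-α)) := by
        unfold bd
        rw [if_neg hW]
      have hMK : 0 ≤ M * K := mul_nonneg hM0 (by linarith)
      have first : N₀ + S.card ≤ bd M K N₀ α W.card := by
        rw [hbW]
        nlinarith [mul_le_mul_of_nonneg_left hw hMK]
      have bound : ∀ X : Finset V, (X.card : ℝ) ≤ θ * W.card →
          bd M K N₀ α X.card + S.card ≤ bd M K N₀ α W.card := by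
        intro X hX
        by_cases hXN : (X.card : ℝ) ≤ N₀
        · have e : bd M K N₀ α X.card = N₀ := by
            unfold bd
            rw [if_pos hXN]
          rw [e]
          exact first
        · have e : bd M K N₀ α X.card = N₀ + M * (K * N₀ ^ (-α) - (X.card : ℝ) ^ (-α)) := by
            unfold bd
            rw [if_neg hXN]
          have hXpos : (0 : ℝ) < X.card := hN₀.trans (not_le.1 hXN)
          have h1 : K * (W.card : ℝ) ^ (-α) ≤ (X.card : ℝ) ^ (-α) := by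
            rw [hK, ← Real.mul_rpow hθ.le hWpos.le]
            exact Real.rpow_le_rpow_of_nonpos hXpos hX (by linarith)
          rw [e, hbW]
          nlinarith [mul_le_mul_of_nonneg_left h1 hM0]
      exact glue R W A S B _ _ _ hWs hAB decA decB (bound A hA) (bound B hB)
        (by linarith)

theorem main : SEPNEG.Stm := by
  intro V _ _ R θ c α N₀ hθ hθ1 hc hα hN₀ hsep W
  have hK1 : 1 < θ ^ (-α) := Real.one_lt_rpow_of_pos_of_lt_one_of_neg hθ hθ1 (by linarith)
  have h1 := claim R θ c α N₀ hθ hθ1 hc hα hN₀ hsep (θ ^ (-α)) (c / (θ ^ (-α) - 1)) rfl rfl hK1 W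
  refine mono R W _ _ ?_ h1
  have hθα : 0 < θ ^ α := Real.rpow_pos_of_pos hθ _
  have hθα1 : θ ^ α < 1 := Real.rpow_lt_one hθ.le hθ1 hα
  have hN : 0 < N₀ ^ (-α) := Real.rpow_pos_of_pos hN₀ _
  have hM0 : 0 ≤ c / (θ ^ (-α) - 1) := div_nonneg hc (by linarith)
  have hden : 0 < 1 - θ ^ α := by linarith
  have e : c / (θ ^ (-α) - 1) * (θ ^ (-α) * N₀ ^ (-α)) = c * N₀ ^ (-α) / (1 - θ ^ α) := by
    rw [Real.rpow_neg hθ.le α]
    have h2 : (θ ^ α)⁻¹ - 1 ≠ 0 := by
      have : 1 < (θ ^ α)⁻¹ := (one_lt_inv₀ hθα).2 hθα1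
      linarith
    have h3 : (θ ^ α)⁻¹ - 1 = (1 - θ ^ α) * (θ ^ α)⁻¹ := by
      field_simp
    rw [h3]
    field_simp
  unfold bd
  split_ifs with h
  · have : 0 ≤ c * N₀ ^ (-α) / (1 - θ ^ α) := by positivity
    linarith
  · rw [← e]
    have hW : 0 ≤ (W.card : ℝ) ^ (-α) := Real.rpow_nonneg (Nat.cast_nonneg _) _
    nlinarith [mul_nonneg hM0 hW]

end Pool.Agent.W334.Pw.SEPNEG
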